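import Pool.Agent.LRY.Stmts

/-!
# Squad LRY, row SZQ: the size of the units
-/

set_option autoImplicit false

namespace Pool.Agent.LRY.H27

open Pool.Agent.LRY
open Pool.Agent.LRG.E (Ro Fa fac st rep mu ex)

theorem fac_rep {r₁ r₂ : ℕ} (k : Fa r₁ r₂) : fac (rep k) = k := by
  rcases k with i | j <;> rfl

theorem card_fac {r₁ r₂ : ℕ} (k : Fa r₁ r₂) :
    (Finset.univ.filter (fun o : Ro r₁ r₂ => fac o = k)).card = mu k := by
  rcases k with i | j
  · have h : Finset.univ.filter (fun o : Ro r₁ r₂ => fac o = Sum.inl i) = {Sum.inl i} := by
      ext o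
      simp only [Finset.mem_filter, Finset.mem_univ, true_and, Finset.mem_singleton]
      rcases o with a | q
      · constructor
        · intro h
          have h' : (Sum.inl a : Fa r₁ r₂) = Sum.inl i := h
          rw [Sum.inl.inj h']
        · intro h
          rw [Sum.inl.inj h]
          rfl
      · constructor
        · intro h
          have h' : (Sum.inr q.1 : Fa r₁ r₂) = Sum.inl i := h
          exact absurd h' (by simp)
        · intro h
          exact absurd h (by simp)
    rw [h, Finset.card_singleton]
    rfl
  · have h : Finset.univ.filter (fun o : Ro r₁ r₂ => fac o = Sum.inr j) =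
        {Sum.inr (j, true), Sum.inr (j, false)} := by
      ext o
      simp only [Finset.mem_filter, Finset.mem_univ, true_and, Finset.mem_insert,
        Finset.mem_singleton]
      rcases o with a | ⟨q, b⟩
      · constructor
        · intro h
          have h' : (Sum.inl a : Fa r₁ r₂) = Sum.inr j := h
          exact absurd h' (by simp)
        · intro h
          rcases h with h | h <;> exact absurd h (by simp)
      · constructor
        · intro h
          have h' : (Sum.inr q : Fa r₁ r₂) = Sum.inr j := h
          have h2 : q = j := Sum.inr.inj h'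
          subst h2
          cases b
          · right; rfl
          · left; rfl
        · intro h
          rcases h with h | h
          · have h1 := Sum.inr.inj h
            have h2 : q = j := congrArg Prod.fst h1
            subst h2; rfl
          · have h1 := Sum.inr.inj h
            have h2 : q = j := congrArg Prod.fst h1
            subst h2; rfl
    rw [h, Finset.card_pair (by simp)]
    rfl

theorem szq : SzqStmt := by
  intro r₁ r₂ N a c x hx hN
  have hpos : ∀ o o' : Ro r₁ r₂, 0 < ‖x o - wr a c o'‖ := by
    intro o o'
    have h1 : ∏ o' : Ro r₁ r₂, ‖x o - wr a c o'‖ ≠ 0 := by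
      rw [hx.one o]; exact one_ne_zero
    have h2 := Finset.prod_ne_zero_iff.1 h1 o' (Finset.mem_univ _)
    exact lt_of_le_of_ne (norm_nonneg _) (Ne.symm h2)
  have hN' : (1 : ℝ) < (N : ℝ) := by exact_mod_cast hN
  refine ⟨?_, ?_, ?_⟩
  · intro o k
    exact Finset.prod_pos fun o' _ => hpos o o'
  · intro o k hk
    have hne : (Finset.univ.filter (fun o : Ro r₁ r₂ => fac o = k)).Nonempty :=
      ⟨rep k, by simp [fac_rep]⟩
    have h1 : ∏ _o ∈ Finset.univ.filter (fun o : Ro r₁ r₂ => fac o = k), (1 : ℝ) <
        ∏ o' ∈ Finset.univ.filter (fun o : Ro r₁ r₂ => fac o = k), ‖x o - wr a c o'‖ := by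
      refine Finset.prod_lt_prod_of_nonempty (fun _ _ => one_pos) ?_ hne
      intro o' ho'
      have h2 : fac o' = k := (Finset.mem_filter.1 ho').2
      have h3 : o ≠ o' := by
        rintro rfl
        exact hk h2
      exact lt_of_lt_of_le hN' (hx.low o o' h3)
    rw [Finset.prod_const_one] at h1
    exact h1
  · intro o k
    have h1 : ∏ o' ∈ Finset.univ.filter (fun o : Ro r₁ r₂ => fac o = k), ‖x o - wr a c o'‖ ≤
        ∏ _o ∈ Finset.univ.filter (fun o : Ro r₁ r₂ => fac o = k), (bq r₁ r₂ * N) :=
      Finset.prod_le_prod (fun o' _ => norm_nonneg _) fun o' _ => hx.high o o'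
    rw [Finset.prod_const, card_fac] at h1
    exact h1

end Pool.Agent.LRY.H27
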